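import Pool.Agent.R795.Min.ES

/-!
# Singletons of tuples
-/

open Function Finset

namespace Pool.Agent.R795.Min

variable {A : Type}

/-- the content of a tuple: the multiset of its entries -/
def content {n : ℕ} (a : Fin n → A) : Multiset A := (Finset.univ : Finset (Fin n)).val.map a

/-- the list of singletons of a tuple (entries which occur exactly once) in their order of
occurrence -/
def sing [DecidableEq A] {n : ℕ} (a : Fin n → A) : List A :=
  (List.ofFn a).filter fun x => (List.ofFn a).count x = 1

/-- the entry at position `i` occurs only there -/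
def IsSing {n : ℕ} (a : Fin n → A) (i : Fin n) : Prop := ∀ k, a k = a i → k = i

variable [DecidableEq A]

theorem count_ofFn {n : ℕ} (a : Fin n → A) (x : A) :
    (List.ofFn a).count x = (univ.filter fun k => a k = x).card := by
  rw [List.ofFn_eq_map, List.count_eq_countP, List.countP_map, List.countP_eq_length_filter]
  have : (univ.filter fun k => a k = x) =
      ((List.finRange n).filter fun k => a k = x).toFinset := by
    ext k; simp
  rw [this, List.toFinset_card_of_nodup ((List.nodup_finRange n).filter _)]
  congr 1

theorem count_eq_one {n : ℕ} (a : Fin n → A) (i : Fin n) :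
    (List.ofFn a).count (a i) = 1 ↔ IsSing a i := by
  rw [count_ofFn, card_eq_one]
  constructor
  · rintro ⟨j, hj⟩ k hk
    have h1 : i ∈ univ.filter fun k => a k = a i := by simp
    have h2 : k ∈ univ.filter fun k => a k = a i := by simpa using hk
    rw [hj, mem_singleton] at h1 h2
    rw [h1, h2]
  · intro h
    refine ⟨i, ?_⟩
    ext k
    simp only [mem_filter, mem_univ, true_and, mem_singleton]
    exact ⟨fun hk => h k hk, fun hk => by rw [hk]⟩

theorem sing_eq {n : ℕ} (a : Fin n → A) :
    sing a = ((List.finRange n).filter fun i => (List.ofFn a).count (a i) = 1).map a := by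
  rw [sing]
  conv_lhs => rw [List.ofFn_eq_map]
  rw [List.filter_map, ← List.ofFn_eq_map]
  rfl

omit [DecidableEq A] in
theorem content_comp {n : ℕ} (b : Fin n → A) (ρ : Equiv.Perm (Fin n)) :
    content (fun k => b (ρ k)) = content b := by
  unfold content
  have : (univ : Finset (Fin n)).val.map ρ = univ.val := by
    have := congrArg Finset.val (Finset.map_univ_equiv ρ)
    simp
  conv_rhs => rw [← this, Multiset.map_map]
  rfl

omit [DecidableEq A] in
theorem isSing_comp {n : ℕ} (b : Fin n → A) (ρ : Equiv.Perm (Fin n)) (x : Fin n) :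
    IsSing (fun k => b (ρ k)) x ↔ IsSing b (ρ x) := by
  constructor
  · intro h k hk
    have := h (ρ.symm k) (by simpa using hk)
    rw [← this]; simp
  · intro h k hk
    exact ρ.injective (h (ρ k) hk)

theorem sing_comp {n : ℕ} (b : Fin n → A) (ρ : Equiv.Perm (Fin n))
    (hρ : ∀ x y, IsSing b (ρ x) → IsSing b (ρ y) → x < y → ρ x < ρ y) :
    sing (fun k => b (ρ k)) = sing b := by
  rw [sing_eq, sing_eq]
  set F1 := (List.finRange n).filter fun i =>
    (List.ofFn fun k => b (ρ k)).count ((fun k => b (ρ k)) i) = 1 with hF1
  set F2 := (List.finRange n).filter fun i => (List.ofFn b).count (b i) = 1 with hF2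
  have m1 : ∀ x, x ∈ F1 ↔ IsSing b (ρ x) := by
    intro x
    rw [hF1, List.mem_filter]
    simp only [List.mem_finRange, true_and, decide_eq_true_eq]
    rw [count_eq_one (fun k => b (ρ k)) x, isSing_comp]
  have m2 : ∀ x, x ∈ F2 ↔ IsSing b x := by
    intro x
    rw [hF2, List.mem_filter]
    simp only [List.mem_finRange, true_and, decide_eq_true_eq]
    rw [count_eq_one b x]
  have s1 : F1.Pairwise (· < ·) := (List.pairwise_lt_finRange n).filter _
  have s2 : F2.Pairwise (· < ·) := (List.pairwise_lt_finRange n).filter _
  have s3 : (F1.map ρ).Pairwise (· < ·) := by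
    rw [List.pairwise_map]
    refine s1.imp_of_mem ?_
    intro x y hx hy hxy
    exact hρ x y ((m1 x).mp hx) ((m1 y).mp hy) hxy
  have key : F1.map ρ = F2 := by
    apply List.Perm.eq_of_pairwise (le := (· < ·)) _ s3 s2
    · rw [List.perm_ext_iff_of_nodup (s3.imp fun h => h.ne) (s2.imp fun h => h.ne)]
      intro y
      rw [List.mem_map, m2]
      constructor
      · rintro ⟨x, hx, rfl⟩
        exact (m1 x).mp hx
      · intro hy
        exact ⟨ρ.symm y, (m1 _).mpr (by simpa using hy), by simp⟩
    · intro x y _ _ h1 h2
      exact absurd h1 h2.asymm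
  rw [← key, List.map_map]
  rfl

end Pool.Agent.R795.Min
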