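import Mathlib

/-!
# Monotone subsequences (Erdős–Szekeres)
-/

open Function Finset

namespace Pool.Agent.R795.Min

variable {α β : Type*} [Fintype α] [LinearOrder α] [LinearOrder β]

/-- sets with greatest element `i` on which `f` is increasing -/
noncomputable def incTo (f : α → β) (i : α) : Finset ℕ :=
  open scoped Classical in
  image card {t : Finset α | IsGreatest t i ∧ StrictMonoOn f t}

lemma one_mem_incTo (f : α → β) (i : α) : 1 ∈ incTo f i := mem_image.2 ⟨{i}, by simp⟩

/-- maximal length of an increasing sequence ending at `i` -/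
noncomputable def maxIncTo (f : α → β) (i : α) : ℕ :=
  max' (incTo f i) ⟨1, one_mem_incTo f i⟩

lemma one_le_maxIncTo (f : α → β) (i : α) : 1 ≤ maxIncTo f i := le_max' _ _ (one_mem_incTo f i)

lemma maxIncTo_lt {f : α → β} {i j : α} (hij : i < j) (hfij : f i < f j) :
    maxIncTo f i < maxIncTo f j := by
  classical
  rw [Nat.lt_iff_add_one_le]
  refine le_max' _ _ ?_
  have : maxIncTo f i ∈ incTo f i := max'_mem _ ⟨1, one_mem_incTo f i⟩
  simp only [incTo, mem_image, mem_filter, mem_univ, true_and, and_assoc] at this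
  obtain ⟨t, hti, ht₁, ht₂⟩ := this
  simp only [incTo, mem_image, mem_filter, mem_univ, true_and, and_assoc]
  have : ∀ x ∈ t, x < j := by
    intro x hx
    exact (hti.2 hx).trans_lt hij
  refine ⟨insert j t, ?_, ?_, ?_⟩
  next =>
    convert hti.insert j
    next => simp
    next => rw [max_eq_left hij.le]
  next =>
    simp only [coe_insert]
    rw [strictMonoOn_insert_iff_of_forall_le]
    · refine ⟨?_, ht₁⟩
      intro x hx hxj
      exact (ht₁.monotoneOn hx hti.1 (hti.2 hx)).trans_lt hfij
    · exact fun x hx ↦ (this x hx).le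
  have : j ∉ t := fun hj ↦ lt_irrefl _ (this _ hj)
  simp [this, ht₂]

theorem erdos_szekeres {r : ℕ} {f : α → β} (hn : r * r < Fintype.card α) (hf : Injective f) :
    (∃ t : Finset α, r < #t ∧ StrictMonoOn f t) ∨
      ∃ t : Finset α, r < #t ∧ StrictAntiOn f t := by
  classical
  set g : α → βᵒᵈ := fun x => OrderDual.toDual (f x) with hg
  have key : ∀ (γ : Type _) [LinearOrder γ] (h : α → γ) (i : α), r < maxIncTo h i →
      ∃ t : Finset α, r < #t ∧ StrictMonoOn h t := by
    intro γ _ h i hi
    have : maxIncTo h i ∈ incTo h i := max'_mem _ ⟨1, one_mem_incTo h i⟩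
    obtain ⟨t, ht₁, ht₂⟩ := mem_image.1 this
    rw [mem_filter] at ht₁
    exact ⟨t, by rwa [ht₂], ht₁.2.2⟩
  by_cases h : ∃ i, r < maxIncTo f i ∨ r < maxIncTo g i
  · obtain ⟨i, hi | hi⟩ := h
    · exact Or.inl (key β f i hi)
    · obtain ⟨t, ht, hm⟩ := key βᵒᵈ g i hi
      refine Or.inr ⟨t, ht, fun x hx y hy hxy => ?_⟩
      exact OrderDual.toDual_lt_toDual.mp (hm hx hy hxy)
  · exfalso
    push Not at h
    have hmaps : Set.MapsTo (fun i => (maxIncTo f i, maxIncTo g i)) (univ : Finset α)
        (Icc 1 r ×ˢ Icc 1 r : Finset _) := by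
      intro i _
      simp only [coe_product, coe_Icc, Set.mem_prod, Set.mem_Icc]
      exact ⟨⟨one_le_maxIncTo f i, (h i).1⟩, ⟨one_le_maxIncTo g i, (h i).2⟩⟩
    have hinj : Injective fun i => (maxIncTo f i, maxIncTo g i) := by
      apply Injective.of_lt_imp_ne
      intro i j hij q
      rw [Prod.mk.injEq] at q
      rcases lt_or_gt_of_ne (hf.ne hij.ne) with h' | h'
      · exact (maxIncTo_lt hij h').ne q.1
      · have h2 : g i < g j := OrderDual.toDual_lt_toDual.mpr h'
        exact (maxIncTo_lt hij h2).ne q.2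
    refine hn.not_ge ?_
    simpa using card_le_card_of_injOn _ hmaps hinj.injOn

end Pool.Agent.R795.Min
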