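import Pool.Agent.R795.Min.Core

/-!
# Functions determined by content and singletons
-/

open Function Finset

namespace Pool.Agent.R795.Min

variable {A B : Type}

/-- `f` is determined by content and singletons -/
def DetCS [DecidableEq A] {n : ℕ} (f : (Fin n → A) → B) : Prop :=
  ∀ a b, content a = content b → sing a = sing b → f a = f b

variable [DecidableEq A]

theorem DetCS.comp {n : ℕ} {f : (Fin n → A) → B} (hf : DetCS f) (b : Fin n → A)
    (ρ : Equiv.Perm (Fin n))
    (hρ : ∀ x y, IsSing b (ρ x) → IsSing b (ρ y) → x < y → ρ x < ρ y) :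
    f (fun k => b (ρ k)) = f b :=
  hf _ _ (content_comp b ρ) (sing_comp b ρ hρ)

omit [DecidableEq A] in
/-- distinct positions of singletons carry distinct values -/
theorem card_sing_le [Fintype A] {n : ℕ} (b : Fin n → A) (U : Finset (Fin n))
    (hU : ∀ u ∈ U, IsSing b u) : U.card ≤ Fintype.card A := by
  classical
  have : Set.InjOn b U := by
    intro x hx y hy hxy
    exact (hU y hy) x hxy
  calc U.card = (U.image b).card := (card_image_of_injOn this).symm
    _ ≤ Fintype.card A := card_le_univ _

omit [DecidableEq A] in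
/-- The permutation of positions. -/
theorem exists_perm {n : ℕ} (b : Fin (n + 1) → A) {c : A} {c1 c2 c3 : Fin (n + 1)}
    (h1 : b c1 = c) (h2 : b c2 = c) (h3 : b c3 = c) (h12 : c1 ≠ c2) (h13 : c1 ≠ c3)
    (h23 : c2 ≠ c3) (j0 : Fin (n + 1)) (i0 i1 : Fin n) (T : Finset (Fin n))
    (hi0 : i0 ∉ T) (hi1 : i1 ∉ T)
    (hT : ∀ U : Finset (Fin (n + 1)), (∀ u ∈ U, IsSing b u) → U.card ≤ T.card) :
    ∃ ρ : Equiv.Perm (Fin (n + 1)), b (ρ j0) = c ∧ b (ρ (j0.succAbove i0)) = c ∧
      b (ρ (j0.succAbove i1)) = c ∧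
      (∀ x, IsSing b (ρ x) → ∃ t ∈ T, x = j0.succAbove t) ∧
      (∀ t ∈ T, ∀ t' ∈ T, IsSing b (ρ (j0.succAbove t)) → IsSing b (ρ (j0.succAbove t')) →
        t < t' → ρ (j0.succAbove t) < ρ (j0.succAbove t')) := by
  classical
  have nosing : ∀ x, b x = c → ¬ IsSing b x := by
    intro x hx hs
    have e1 := hs c1 (h1.trans hx.symm)
    have e2 := hs c2 (h2.trans hx.symm)
    exact h12 (e1.trans e2.symm)
  set U : Finset (Fin (n + 1)) := univ.filter fun u => IsSing b u with hU
  have hUT := hT U (fun u hu => (mem_filter.mp hu).2)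
  set k := U.card with hk
  set u := U.orderEmbOfFin hk.symm with hu
  set t := fun l : Fin k => T.orderEmbOfFin rfl (Fin.castLE hUT l) with ht
  have tmono : ∀ l l', t l < t l' ↔ l < l' := by
    intro l l'
    simp only [ht, OrderEmbedding.lt_iff_lt, Fin.castLE_lt_castLE_iff]
  have tinj : Injective t := by
    intro l l' h
    rcases lt_trichotomy l l' with h' | h' | h'
    · exact absurd h ((tmono _ _).mpr h').ne
    · exact h'
    · exact absurd h ((tmono _ _).mpr h').ne'
  have tmem : ∀ l, t l ∈ T := fun l => orderEmbOfFin_mem _ _ _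
  have umem : ∀ l, IsSing b (u l) := fun l => (mem_filter.mp (orderEmbOfFin_mem _ _ _)).2
  -- the partial injection
  set F : Fin (n + 1) → Fin (n + 1) := fun x =>
    if x = j0 then c1 else if x = j0.succAbove i0 then c2 else if x = j0.succAbove i1 then c3
    else if h : ∃ l, x = j0.succAbove (t l) then u h.choose else c1 with hF
  have succ_inj : ∀ {a b : Fin n}, j0.succAbove a = j0.succAbove b → a = b :=
    fun h => Fin.succAbove_right_injective h
  have F0 : F j0 = c1 := by simp [hF]
  have Fi0 : F (j0.succAbove i0) = c2 := by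
    simp [hF, Fin.succAbove_ne]
  have Fi1 : F (j0.succAbove i1) = c2 ∨ F (j0.succAbove i1) = c3 := by
    by_cases h : i1 = i0
    · left; rw [h]; exact Fi0
    · right
      have : j0.succAbove i1 ≠ j0.succAbove i0 := fun h' => h (succ_inj h')
      simp [hF, Fin.succAbove_ne, this]
  have Ft : ∀ l, F (j0.succAbove (t l)) = u l := by
    intro l
    have n1 : j0.succAbove (t l) ≠ j0 := Fin.succAbove_ne _ _
    have n2 : j0.succAbove (t l) ≠ j0.succAbove i0 := fun h => by
      have := succ_inj h
      exact hi0 (this ▸ tmem l)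
    have n3 : j0.succAbove (t l) ≠ j0.succAbove i1 := fun h => by
      have := succ_inj h
      exact hi1 (this ▸ tmem l)
    have ex : ∃ l', j0.succAbove (t l) = j0.succAbove (t l') := ⟨l, rfl⟩
    simp only [hF, if_neg n1, if_neg n2, if_neg n3, dif_pos ex]
    congr 1
    exact (tinj (succ_inj ex.choose_spec)).symm
  set s : Finset (Fin (n + 1)) :=
    {j0, j0.succAbove i0, j0.succAbove i1} ∪ univ.image (fun l => j0.succAbove (t l)) with hs
  have hinj : Set.InjOn F s := by
    have hc : ∀ x ∈ ({j0, j0.succAbove i0, j0.succAbove i1} : Finset (Fin (n + 1))),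
        b (F x) = c := by
      intro x hx
      simp only [mem_insert, mem_singleton] at hx
      rcases hx with rfl | rfl | rfl
      · rw [F0]; exact h1
      · rw [Fi0]; exact h2
      · rcases Fi1 with h | h <;> rw [h]
        · exact h2
        · exact h3
    have hcross : ∀ x ∈ ({j0, j0.succAbove i0, j0.succAbove i1} : Finset (Fin (n + 1))),
        ∀ l, F x ≠ F (j0.succAbove (t l)) := by
      intro x hx l h
      apply nosing (F x) (hc x hx)
      rw [h, Ft]
      exact umem l
    intro x hx y hy hxy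
    simp only [hs, coe_union, coe_image, coe_univ, Set.image_univ, Set.mem_union, Set.mem_range,
      mem_coe] at hx hy
    rcases hx with hx | ⟨l, rfl⟩
    · rcases hy with hy | ⟨l', rfl⟩
      · simp only [mem_insert, mem_singleton] at hx hy
        by_cases h : i1 = i0
        · subst h
          simp only [or_self] at hx hy
          rcases hx with rfl | rfl <;> rcases hy with rfl | rfl
          · rfl
          · rw [F0, Fi0] at hxy; exact absurd hxy h12
          · rw [F0, Fi0] at hxy; exact absurd hxy.symm h12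
          · rfl
        · have Fi1' : F (j0.succAbove i1) = c3 := by
            have : j0.succAbove i1 ≠ j0.succAbove i0 := fun h' => h (succ_inj h')
            simp [hF, Fin.succAbove_ne, this]
          rcases hx with rfl | rfl | rfl <;> rcases hy with rfl | rfl | rfl
          · rfl
          · rw [F0, Fi0] at hxy; exact absurd hxy h12
          · rw [F0, Fi1'] at hxy; exact absurd hxy h13
          · rw [F0, Fi0] at hxy; exact absurd hxy.symm h12
          · rfl
          · rw [Fi0, Fi1'] at hxy; exact absurd hxy h23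
          · rw [F0, Fi1'] at hxy; exact absurd hxy.symm h13
          · rw [Fi0, Fi1'] at hxy; exact absurd hxy.symm h23
          · rfl
      · exact absurd hxy (hcross x hx l')
    · rcases hy with hy | ⟨l', rfl⟩
      · exact absurd hxy.symm (hcross y hy l)
      · rw [Ft, Ft] at hxy
        rw [u.injective hxy]
  obtain ⟨g, hg⟩ := Finset.exists_equiv_extend_of_card_eq
    (α := Fin (n + 1)) (β := Fin (n + 1)) (t := univ) (by simp) (s := s) (f := F)
    (subset_univ _) hinj
  set ρ : Equiv.Perm (Fin (n + 1)) := g.trans (Equiv.subtypeUnivEquiv (by simp)) with hρ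
  have hρs : ∀ x ∈ s, ρ x = F x := by
    intro x hx
    rw [← hg x hx]
    rfl
  have m0 : j0 ∈ s := by simp [hs]
  have m1 : j0.succAbove i0 ∈ s := by simp [hs]
  have m2 : j0.succAbove i1 ∈ s := by simp [hs]
  have mt : ∀ l, j0.succAbove (t l) ∈ s := by
    intro l
    rw [hs, mem_union]
    right
    exact mem_image_of_mem _ (mem_univ l)
  have hsing : ∀ x, IsSing b (ρ x) → ∃ l, x = j0.succAbove (t l) ∧ ρ x = u l := by
    intro x hx
    have hxU : ρ x ∈ U := mem_filter.mpr ⟨mem_univ _, hx⟩
    have : ρ x ∈ Set.range u := by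
      rw [hu, range_orderEmbOfFin]
      exact hxU
    obtain ⟨l, hl⟩ := this
    refine ⟨l, ?_, hl.symm⟩
    apply ρ.injective
    rw [hρs _ (mt l), Ft, hl]
  refine ⟨ρ, ?_, ?_, ?_, ?_, ?_⟩
  · rw [hρs _ m0, F0]; exact h1
  · rw [hρs _ m1, Fi0]; exact h2
  · rw [hρs _ m2]
    rcases Fi1 with h | h <;> rw [h]
    · exact h2
    · exact h3
  · intro x hx
    obtain ⟨l, hl, _⟩ := hsing x hx
    exact ⟨t l, tmem l, hl⟩
  · intro a _ a' _ hsa hsa' hlt
    obtain ⟨l, hl, hl2⟩ := hsing _ hsa
    obtain ⟨l', hl', hl2'⟩ := hsing _ hsa'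
    rw [hl2, hl2']
    have e1 := succ_inj hl
    have e2 := succ_inj hl'
    rw [e1, e2, tmono] at hlt
    exact u.strictMono hlt

/-- The comparison of two functions with a common identification minor. -/
theorem compare [Fintype A] {n : ℕ} {f g : (Fin (n + 1) → A) → B} (hf : DetCS f) (hg : DetCS g)
    (i0 : Fin n) (j0 : Fin (n + 1)) (i : Fin n) (j : Fin (n + 1)) (σ : Equiv.Perm (Fin n))
    (h : ∀ a : Fin n → A, f (j0.insertNth (a i0) a) = g (j.insertNth (a (σ i)) fun k => a (σ k)))
    (hn : Fintype.card A * Fintype.card A + 3 ≤ n) :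
    f = g ∨ ∀ b, f b = g (fun k => b (Fin.rev k)) := by
  classical
  -- monotone subset
  have hcard : Fintype.card A * Fintype.card A < Fintype.card {t : Fin n // t ≠ i0 ∧ t ≠ σ i} := by
    rw [Fintype.card_subtype]
    have h1 : (univ.filter fun t : Fin n => t ≠ i0 ∧ t ≠ σ i) = (univ \ {i0, σ i}) := by
      ext t; simp
    rw [h1, card_sdiff_of_subset (subset_univ _), card_univ, Fintype.card_fin]
    have : ({i0, σ i} : Finset (Fin n)).card ≤ 2 := card_le_two
    lia
  have hinj : Injective fun t : {t : Fin n // t ≠ i0 ∧ t ≠ σ i} => σ.symm t.1 :=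
    fun a b hab => Subtype.ext (σ.symm.injective hab)
  -- the common part
  have common : ∀ (T : Finset (Fin n)), i0 ∉ T → σ i ∉ T → Fintype.card A ≤ T.card →
      ∀ b : Fin (n + 1) → A, ∃ ρ' : Equiv.Perm (Fin (n + 1)), f b = g (fun k => b (ρ' k)) ∧
        ∀ x y, IsSing b (ρ' x) → IsSing b (ρ' y) → ∃ t ∈ T, ∃ t' ∈ T,
          x = j.succAbove (σ.symm t) ∧ y = j.succAbove (σ.symm t') ∧ (t < t' → ρ' x < ρ' y) := by
    intro T hT0 hT1 hTc b
    -- a value occurring three times
    obtain ⟨c, _, hc⟩ : ∃ c ∈ (univ : Finset A), 2 < (univ.filter fun k => b k = c).card := by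
      apply exists_lt_card_fiber_of_mul_lt_card_of_maps_to (fun _ _ => mem_univ _)
      rw [card_univ, card_univ, Fintype.card_fin]
      nlinarith [Nat.zero_le (Fintype.card A)]
    obtain ⟨c1, c2, c3, hc1, hc2, hc3, h12, h13, h23⟩ := two_lt_card_iff.mp hc
    simp only [mem_filter, mem_univ, true_and] at hc1 hc2 hc3
    obtain ⟨ρ, r1, r2, r3, r4, r5⟩ := exists_perm b hc1 hc2 hc3 h12 h13 h23 j0 i0 (σ i) T hT0 hT1
      (fun U hU => (card_sing_le b U hU).trans hTc)
    -- the comparison of positions
    set κ : Equiv.Perm (Fin (n + 1)) :=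
      (finSuccEquiv' j).trans ((Equiv.optionCongr σ).trans (finSuccEquiv' j0).symm) with hκ
    have κj : κ j = j0 := by simp [hκ]
    have κs : ∀ t, κ (j.succAbove t) = j0.succAbove (σ t) := by intro t; simp [hκ]
    set a : Fin n → A := fun t => b (ρ (j0.succAbove t)) with ha
    have ea : j0.insertNth (a i0) a = fun k => b (ρ k) := by
      funext k
      rcases Fin.eq_self_or_eq_succAbove j0 k with rfl | ⟨t, rfl⟩
      · rw [Fin.insertNth_apply_same, ha]
        simp only
        rw [r2, r1]
      · rw [Fin.insertNth_apply_succAbove]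
    have eb : (j.insertNth (a (σ i)) fun k => a (σ k)) = fun k => b ((κ.trans ρ) k) := by
      funext k
      rcases Fin.eq_self_or_eq_succAbove j k with rfl | ⟨t, rfl⟩
      · rw [Fin.insertNth_apply_same, ha]
        simp only [Equiv.trans_apply]
        rw [κj, r3, r1]
      · rw [Fin.insertNth_apply_succAbove]
        simp only [Equiv.trans_apply]
        rw [κs]
    refine ⟨κ.trans ρ, ?_, ?_⟩
    · rw [← eb, ← h a, ea]
      refine (hf.comp b ρ ?_).symm
      intro x y hx hy hxy
      obtain ⟨t, ht, rfl⟩ := r4 x hx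
      obtain ⟨t', ht', rfl⟩ := r4 y hy
      exact r5 t ht t' ht' hx hy (Fin.succAbove_lt_succAbove_iff.mp hxy)
    · intro x y hx hy
      simp only [Equiv.trans_apply] at hx hy ⊢
      obtain ⟨t, ht, et⟩ := r4 _ hx
      obtain ⟨t', ht', et'⟩ := r4 _ hy
      refine ⟨t, ht, t', ht', ?_, ?_, ?_⟩
      · apply κ.injective
        rw [κs, et]; simp
      · apply κ.injective
        rw [κs, et']; simp
      · intro hlt
        rw [et] at hx ⊢
        rw [et'] at hy ⊢
        exact r5 t ht t' ht' hx hy hlt
  rcases erdos_szekeres hcard hinj with ⟨T, hT, hm⟩ | ⟨T, hT, hm⟩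
  · left
    funext b
    set T' : Finset (Fin n) := T.map (Embedding.subtype _) with hT'
    have hT'0 : i0 ∉ T' := by simp [hT']
    have hT'1 : σ i ∉ T' := by simp [hT']
    obtain ⟨ρ', e1, e2⟩ := common T' hT'0 hT'1 (by rw [hT', card_map]; exact hT.le) b
    rw [e1]
    apply hg.comp
    intro x y hx hy hxy
    obtain ⟨t, ht, t', ht', rfl, rfl, hlt⟩ := e2 x y hx hy
    apply hlt
    rw [hT', mem_map] at ht ht'
    obtain ⟨s, hs, rfl⟩ := ht
    obtain ⟨s', hs', rfl⟩ := ht'
    have h1 := Fin.succAbove_lt_succAbove_iff.mp hxy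
    by_contra hle
    push Not at hle
    rcases hle.lt_or_eq with h2 | h2
    · have := hm hs' hs h2
      exact absurd h1 this.asymm
    · simp only [Embedding.subtype_apply] at h1 h2
      rw [h2] at h1
      exact lt_irrefl _ h1
  · right
    intro b
    set T' : Finset (Fin n) := T.map (Embedding.subtype _) with hT'
    have hT'0 : i0 ∉ T' := by simp [hT']
    have hT'1 : σ i ∉ T' := by simp [hT']
    obtain ⟨ρ', e1, e2⟩ := common T' hT'0 hT'1 (by rw [hT', card_map]; exact hT.le) b
    rw [e1]
    have hrev : (fun k => b (ρ' k)) =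
        fun k => (fun l => b (Fin.rev l)) ((ρ'.trans Fin.revPerm) k) := by
      funext k
      simp [Equiv.trans_apply]
    rw [hrev]
    refine hg.comp (fun l => b (Fin.rev l)) (ρ'.trans Fin.revPerm) ?_
    have hsb : ∀ l, IsSing (fun l => b (Fin.rev l)) l ↔ IsSing b (Fin.rev l) :=
      fun l => isSing_comp b Fin.revPerm l
    intro x y hx hy hxy
    rw [hsb] at hx hy
    simp only [Equiv.trans_apply, Fin.revPerm_apply, Fin.rev_rev] at hx hy ⊢
    rw [Fin.rev_lt_rev]
    obtain ⟨t, ht, t', ht', rfl, rfl, hlt⟩ := e2 x y hx hy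
    obtain ⟨u', hu', u, hu, e3, e4, hlt'⟩ := e2 _ _ hy hx
    have e5 : u' = t' := σ.symm.injective (Fin.succAbove_right_injective e3).symm
    have e6 : u = t := σ.symm.injective (Fin.succAbove_right_injective e4).symm
    subst e5 e6
    apply hlt'
    rw [hT', mem_map] at ht ht'
    obtain ⟨s, hs, rfl⟩ := ht
    obtain ⟨s', hs', rfl⟩ := ht'
    have h1 := Fin.succAbove_lt_succAbove_iff.mp hxy
    by_contra hle
    push Not at hle
    rcases hle.lt_or_eq with h2 | h2
    · have := hm hs hs' h2
      exact absurd h1 this.asymm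
    · simp only [Embedding.subtype_apply] at h1 h2
      rw [h2] at h1
      exact lt_irrefl _ h1

end Pool.Agent.R795.Min
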